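import Mathlib
import Pool.Agent.MP_f2c8fe_an.Sum

/-!
The question of Riviere has a negative answer in every dimension and for every exponent
`1 < p < 2`: a translation invariant operator of weak type `(p, p)` need not map `L^p` into
`L^{p,q}` for any finite `q`, in particular not into `L^{p,p'}`.
-/

open MeasureTheory Pool.Agent.MP_f2c8fe_an
open scoped ENNReal NNReal

namespace Pool.Agent.Results.MP_f2c8fe_an.RiviereFalse

lemma lintegral_Lp {α : Type*} [MeasurableSpace α] {μ : Measure α} {p : ℝ} (hp : 0 < p)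
    (f : Lp ℂ (ENNReal.ofReal p) μ) :
    ∫⁻ x, ENNReal.ofReal (‖f x‖ ^ p) ∂μ = ENNReal.ofReal (‖f‖ ^ p) := by
  have h0 : ENNReal.ofReal p ≠ 0 := by simpa using hp
  have h1 := eLpNorm_eq_lintegral_rpow_enorm_toReal (μ := μ) h0 ENNReal.ofReal_ne_top
    (f := (f : α → ℂ))
  rw [ENNReal.toReal_ofReal hp.le] at h1
  rw [Lp.norm_def, ← ENNReal.ofReal_rpow_of_nonneg ENNReal.toReal_nonneg hp.le,
    ENNReal.ofReal_toReal (Lp.eLpNorm_ne_top f), h1, ← ENNReal.rpow_mul,
    one_div_mul_cancel hp.ne', ENNReal.rpow_one]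
  refine lintegral_congr fun x => ?_
  rw [← ENNReal.ofReal_rpow_of_nonneg (norm_nonneg _) hp.le, ofReal_norm]

theorem result (n : ℕ) (hn : 1 ≤ n) (p : ℝ) (hp1 : 1 < p) (hp2 : p < 2) :
    ∃ T : Op (volume : Measure (Fin n → ℝ)) (ENNReal.ofReal p),
      TransInv T ∧ BoundedInto T (weakNorm volume p) ∧
      (∀ q : ℝ, 0 < q → InfiniteOnIndicator T (lorentzNorm volume p q) (Metric.ball 0 (1 / 2))) ∧
      ¬ BoundedInto T (lorentzNorm volume p (p / (p - 1))) := by
  classical
  have hp0 : 0 < p := by linarith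
  set E := Fin n → ℝ with hE
  obtain ⟨e, he⟩ : ∃ e : E, ‖e‖ = 1 :=
    ⟨Pi.single (⟨0, hn⟩ : Fin n) (1 : ℝ), (Pi.norm_single _).trans norm_one⟩
  choose N hN κ nn hweak hpos hgrow hlow using
    fun r : ℕ => exists_cyclic_kernel hp1 hp2 ((r + 1) ^ r)
  -- the shifts
  set s : ℕ → ℤ := fun r => ∑ i ∈ Finset.range r, 2 * (N i : ℤ) + N r with hs
  have hs_lt : ∀ r r', r < r' → s r + N r + N r' ≤ s r' := by
    intro r r' h
    have h1 : ∑ i ∈ Finset.range (r + 1), 2 * (N i : ℤ) ≤ ∑ i ∈ Finset.range r', 2 * (N i : ℤ) :=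
      Finset.sum_le_sum_of_subset_of_nonneg (Finset.range_subset_range.2 h) fun _ _ _ => by
        positivity
    rw [Finset.sum_range_succ] at h1
    simp only [hs]
    linarith
  set S : (E → ℂ) → E → ℂ := fun f x => ∑' r, (4 : ℂ)⁻¹ ^ r * trOp (κ r) e (s r) f x with hS
  have hSm : ∀ f, Measurable f → Measurable (S f) := fun f hf =>
    Measurable.tsum fun r => (measurable_trOp (κ r) e (s r) hf).const_mul _
  have hScongr : ∀ f g : E → ℂ, f =ᵐ[volume] g → S f =ᵐ[volume] S g := by
    intro f g h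
    have h1 : ∀ᵐ x, ∀ r, trOp (κ r) e (s r) f x = trOp (κ r) e (s r) g x :=
      ae_all_iff.2 fun r => trOp_congr volume (κ r) e (s r) h
    filter_upwards [h1] with x hx
    simp only [hS, hx]
  have hLm : ∀ f : Lp ℂ (ENNReal.ofReal p) (volume : Measure E), Measurable f :=
    fun f => (Lp.stronglyMeasurable f).measurable
  have hw : ∀ f : Lp ℂ (ENNReal.ofReal p) (volume : Measure E), ∀ r l, 0 < l →
      volume {x | 2 * l < ‖trOp (κ r) e (s r) f x‖} ≤
        ENNReal.ofReal (cst p * l ^ (-p)) * ENNReal.ofReal (‖f‖ ^ p) := by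
    intro f r l hl
    rw [← lintegral_Lp hp0 f]
    exact weak_trOp volume hp1 hp2 (κ r) (hweak r) e (s r) (hLm f) hl
  have hsum : ∀ f : Lp ℂ (ENNReal.ofReal p) (volume : Measure E),
      ∀ᵐ x, Summable fun r => (4 : ℂ)⁻¹ ^ r * trOp (κ r) e (s r) f x := fun f =>
    ae_summable volume hp1.le (cst_pos hp1).le ENNReal.ofReal_ne_top _ (hw f)
  let T : Lp ℂ (ENNReal.ofReal p) (volume : Measure E) →ₗ[ℂ] (E →ₘ[volume] ℂ) :=
    { toFun := fun f => AEEqFun.mk (S f) (hSm f (hLm f)).aestronglyMeasurable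
      map_add' := by
        intro f g
        rw [AEEqFun.mk_add_mk, AEEqFun.mk_eq_mk]
        refine (hScongr _ _ (Lp.coeFn_add f g)).trans ?_
        filter_upwards [hsum f, hsum g] with x h1 h2
        simp only [hS, trOp_add, mul_add, Pi.add_apply]
        exact h1.tsum_add h2
      map_smul' := by
        intro c f
        rw [AEEqFun.smul_mk, AEEqFun.mk_eq_mk]
        refine (hScongr _ _ (Lp.coeFn_smul c f)).trans ?_
        filter_upwards with x
        simp only [hS, trOp_smul, Pi.smul_apply, smul_eq_mul, RingHom.id_apply]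
        rw [← tsum_mul_left]
        exact tsum_congr fun r => by ring }
  have hT : ∀ f, T f =ᵐ[volume] S f := fun f => AEEqFun.coeFn_mk _ _
  -- the test function
  have hB0 : volume (Metric.ball (0 : E) (1 / 2)) ≠ 0 :=
    (Metric.measure_ball_pos _ _ (by norm_num)).ne'
  have hBtop : volume (Metric.ball (0 : E) (1 / 2)) ≠ ⊤ := measure_ball_lt_top.ne
  set f₀ : Lp ℂ (ENNReal.ofReal p) (volume : Measure E) :=
    indicatorConstLp _ measurableSet_ball hBtop (1 : ℂ) with hf₀
  have hTf₀ : T f₀ =ᵐ[volume] S (bump E) := (hT f₀).trans (hScongr _ _ indicatorConstLp_coeFn)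
  have htop : ∀ q : ℝ, 0 < q → lorentzNorm volume p q (T f₀) = ⊤ := by
    intro q hq
    rw [lorentzNorm_congr hTf₀]
    set β : ℝ := (volume (Metric.ball (0 : E) (1 / 2))).toReal with hβ
    have hβ0 : 0 < β := ENNReal.toReal_pos hB0 hBtop
    have hγ : 0 < (β / 2) ^ (1 / p) / 4 := by
      have := Real.rpow_pos_of_pos (show 0 < β / 2 by linarith) (1 / p)
      positivity
    refine lorentzNorm_eq_top hp1.le hq hγ (fun r j => β / 2 * nn r j) ?_ ?_ ?_
    · intro r j
      have : (0 : ℝ) < nn r j := by exact_mod_cast hpos r j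
      positivity
    · intro r i j hij
      have : (2 : ℝ) * nn r i ≤ nn r j := by exact_mod_cast hgrow r i j hij
      nlinarith
    · intro r j
      obtain ⟨A, hA, hA'⟩ := hlow r j
      have hnn : (0 : ℝ) < nn r j := by exact_mod_cast hpos r j
      have hsub : (⋃ m ∈ A, Metric.ball ((s r + (m : ℕ)) • e) (1 / 2)) ⊆
          {x | (4 : ℝ)⁻¹ ^ r * ((β / 2) ^ (1 / p) / 4) * ((β / 2 * nn r j) ^ (1 / p))⁻¹
            ≤ ‖S (bump E) x‖} := by
        intro x hx
        simp only [Set.mem_iUnion] at hx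
        obtain ⟨m, hm, hx⟩ := hx
        obtain ⟨h1, h2⟩ := hA' m hm
        have h3 : S (bump E) x = (4 : ℂ)⁻¹ ^ r * trOp (κ r) e (s r) (bump E) x := by
          refine tsum_eq_single r fun r' hr' => ?_
          rw [trOp_bump_zero he (κ r') hx, mul_zero]
          rcases lt_or_gt_of_ne hr' with h | h
          · left
            have := hs_lt r' r h
            omega
          · right
            have := hs_lt r r' h
            omega
        have h4 := trOp_bump he (κ r) h1 hx
        simp only [Set.mem_ofPred_eq]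
        rw [h3, norm_mul, norm_pow, norm_inv, Complex.norm_ofNat, mul_assoc,
          Real.mul_rpow (by linarith) hnn.le]
        refine mul_le_mul_of_nonneg_left ?_ (by positivity)
        have h5 := Real.rpow_pos_of_pos (show 0 < β / 2 by linarith) (1 / p)
        have h6 : (β / 2) ^ (1 / p) / 4 * ((β / 2) ^ (1 / p) * (nn r j : ℝ) ^ (1 / p))⁻¹
            = ((nn r j : ℝ) ^ (1 / p))⁻¹ / 4 := by
          field_simp
        rw [h6]
        linarith
      refine le_trans ?_ (measure_mono hsub)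
      rw [measure_biUnion_finset ?_ fun _ _ => measurableSet_ball]
      · simp only [Measure.addHaar_ball_center, Finset.sum_const, nsmul_eq_mul]
        rw [← ENNReal.ofReal_toReal hBtop, ← hβ, ← ENNReal.ofReal_natCast,
          ← ENNReal.ofReal_mul (Nat.cast_nonneg _)]
        apply ENNReal.ofReal_le_ofReal
        have : (nn r j : ℝ) ≤ 2 * A.card := by exact_mod_cast hA
        nlinarith
      · intro m _ m' _ hmm
        exact balls_disjoint he (by omega)
  refine ⟨T, ?_, ?_, fun q hq => ⟨f₀, indicatorConstLp_coeFn, htop q hq⟩, ?_⟩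
  · intro h f g hfg
    have h1 : ∀ᵐ x, T f (x - h) = S f (x - h) :=
      (measurePreserving_sub_right volume h).quasiMeasurePreserving.ae_eq_comp (hT f)
    filter_upwards [hT g, h1, hScongr _ _ hfg] with x h2 h3 h4
    rw [h2, h3, h4]
    simp only [hS, trOp_translate]
  · have hC := cst_pos hp1
    have hC' := Real.rpow_pos_of_pos (show 0 < 2 * cst p by linarith) (1 / p)
    refine ⟨Real.toNNReal (4 * (2 * cst p) ^ (1 / p)), fun f => ?_⟩
    have hf0 : 0 ≤ ‖f‖ := by rw [Lp.norm_def]; exact ENNReal.toReal_nonneg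
    have hrhs : (Real.toNNReal (4 * (2 * cst p) ^ (1 / p)) : ℝ≥0∞) *
        eLpNorm f (ENNReal.ofReal p) volume = ENNReal.ofReal (4 * (2 * cst p) ^ (1 / p) * ‖f‖) := by
      rw [ENNReal.ofReal_mul (by positivity), Lp.norm_def,
        ENNReal.ofReal_toReal (Lp.eLpNorm_ne_top f)]
      rfl
    rw [weakNorm_congr (hT f), hrhs]
    refine weakNorm_le hp0 (by positivity) fun l hl => ?_
    have h1 := weak_tsum volume hp1.le hC.le _ _ (hw f) (l := l / 4) (by linarith)
    rw [mul_div_cancel₀ _ (by norm_num : (4 : ℝ) ≠ 0)] at h1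
    refine h1.trans (le_of_eq ?_)
    rw [← ENNReal.ofReal_mul (by positivity)]
    congr 1
    rw [Real.mul_rpow (by positivity) hf0, Real.mul_rpow (by norm_num) hC'.le,
      ← Real.rpow_mul (by linarith), one_div_mul_cancel hp0.ne', Real.rpow_one,
      Real.div_rpow hl.le (by norm_num), Real.rpow_neg (show (0 : ℝ) ≤ 4 by norm_num)]
    field_simp
  · rintro ⟨C, hC⟩
    have h1 := hC f₀
    rw [htop _ (div_pos hp0 (by linarith))] at h1
    exact absurd h1 (not_le.2 (ENNReal.mul_lt_top ENNReal.coe_lt_top (Lp.eLpNorm_lt_top f₀)))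

end Pool.Agent.Results.MP_f2c8fe_an.RiviereFalse
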