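import Mathlib
import Pool.Agent.MP_f2c8fe_an.SR.Neg

/-!
The sharp repair of the assertion of Riviere. For `1 < p < 2` and `p < q < ∞`, every translation
invariant operator bounded from `L^{p,q}` to weak `L^p` is bounded from `L^p` to `L^{p,t}`
exactly when `1/t ≤ 1/p - 1/q`.
-/

open MeasureTheory Pool.Agent.MP_f2c8fe_an
open scoped ENNReal NNReal

namespace Pool.Agent.Results.MP_f2c8fe_an.SharpRepair

/-- The space `lorentzSpace` consists exactly of the classes with finite quasi-norm. -/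
theorem mem_space {α : Type*} [MeasurableSpace α] (μ : Measure α) {p q : ℝ} (hp : 0 < p)
    (hq : 0 < q) (f : α →ₘ[μ] ℂ) : f ∈ lorentzSpace μ p q ↔ lorentzNorm μ p q f < ⊤ :=
  SR.mem_lorentzSpace hp hq f

/-- For `p ≤ q` the space `L^p` is contained in `lorentzSpace μ p q`. -/
theorem mem_space_of_eLpNorm {α : Type*} [MeasurableSpace α] (μ : Measure α) {p q : ℝ}
    (hp : 0 < p) (hq : p ≤ q) (f : α →ₘ[μ] ℂ) (hf : eLpNorm f (ENNReal.ofReal p) μ < ⊤) :
    f ∈ lorentzSpace μ p q := by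
  have hq0 : 0 < q := hp.trans_le hq
  rw [mem_space μ hp hq0, SR.lorentz_lt_top_iff _ hp hq0]
  have h0 : ENNReal.ofReal p ≠ 0 := by simpa using hp
  have h1 := lintegral_rpow_enorm_lt_top_of_eLpNorm_lt_top h0 ENNReal.ofReal_ne_top hf
  rw [ENNReal.toReal_ofReal hp.le] at h1
  exact (SR.S_le_Lp f.stronglyMeasurable.measurable hp hq).trans_lt
    (ENNReal.rpow_lt_top_of_nonneg (by positivity) (ENNReal.mul_ne_top (SR.geo_ne_top hp) h1.ne))

theorem result (n : ℕ) (hn : 1 ≤ n) (p q t : ℝ) (hp1 : 1 < p) (hp2 : p < 2) (hq : p < q)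
    (ht : 0 < t) :
    (∀ T : LOp (volume : Measure (Fin n → ℝ)) p q, LTransInv T →
      LBounded T (lorentzNorm volume p q) (weakNorm volume p) →
      LBounded T (fun f => eLpNorm f (ENNReal.ofReal p) volume) (lorentzNorm volume p t))
    ↔ 1 / t ≤ 1 / p - 1 / q := by
  have hp0 : 0 < p := by linarith
  constructor
  · intro h
    by_contra hlt
    obtain ⟨T, h1, h2, f, h3, h4⟩ := SR.negative n hn hp1 hp2 hq ht (not_le.1 hlt)
    obtain ⟨C, hC⟩ := h T h1 h2
    have h5 : lorentzNorm volume p t (T f) ≤ C * eLpNorm f.1 (ENNReal.ofReal p) volume := hC f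
    rw [h4, eLpNorm_congr_ae h3] at h5
    refine absurd h5 (not_le.2 (ENNReal.mul_lt_top ENNReal.coe_lt_top ?_))
    exact (memLp_indicator_const _ measurableSet_ball _ (Or.inr measure_ball_lt_top.ne)).2
  · intro hpt T h1 h2
    obtain ⟨e, he⟩ : ∃ e : Fin n → ℝ, ‖e‖ = 1 :=
      ⟨Pi.single (⟨0, hn⟩ : Fin n) (1 : ℝ), (Pi.norm_single _).trans norm_one⟩
    exact SR.positive volume he hp0 hq ht hpt T h1 h2

/-- The conclusion asked by Riviere, `t = p / (p - 1)`, holds exactly for `q ≥ p / (2 - p)`. -/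
theorem dual_exponent (n : ℕ) (hn : 1 ≤ n) (p q : ℝ) (hp1 : 1 < p) (hp2 : p < 2) (hq : p < q) :
    (∀ T : LOp (volume : Measure (Fin n → ℝ)) p q, LTransInv T →
      LBounded T (lorentzNorm volume p q) (weakNorm volume p) →
      LBounded T (fun f => eLpNorm f (ENNReal.ofReal p) volume)
        (lorentzNorm volume p (p / (p - 1))))
    ↔ p / (2 - p) ≤ q := by
  have hp0 : 0 < p := by linarith
  have hq0 : 0 < q := by linarith
  rw [result n hn p q _ hp1 hp2 hq (div_pos hp0 (by linarith)), one_div_div,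
    div_le_iff₀ (by linarith : 0 < 2 - p), div_sub_div _ _ hp0.ne' hq0.ne',
    div_le_div_iff₀ hp0 (by positivity)]
  constructor
  · intro h
    nlinarith
  · intro h
    nlinarith

end Pool.Agent.Results.MP_f2c8fe_an.SharpRepair
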